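import Mathlib

/-!
# Long 2-zero free sequences over `Z / p^r`
-/

set_option autoImplicit false

namespace Pool.Agent.H343.Dv

/-- `T` has at least two terms and its second elementary symmetric polynomial vanishes -/
def TwoZero {n : ℕ} (T : Multiset (ZMod n)) : Prop := 2 ≤ T.card ∧ T.esymm 2 = 0

/-- every sequence of length `D` has a 2-zero subsequence -/
def Forces (n D : ℕ) : Prop := ∀ S : Multiset (ZMod n), S.card = D → ∃ T ≤ S, TwoZero T

/-- the degree 2 Davenport constant -/
noncomputable def dav (n : ℕ) : ℕ := sInf {D | 0 < D ∧ Forces n D}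

lemma esymm_two_cons {R : Type*} [CommRing R] (a : R) (s : Multiset R) :
    (a ::ₘ s).esymm 2 = s.esymm 2 + a * s.sum := by
  unfold Multiset.esymm
  rw [Multiset.powersetCard_cons, Multiset.map_add, Multiset.sum_add, Multiset.map_map]
  congr 1
  rw [Multiset.powersetCard_one, Multiset.map_map]
  have h := Multiset.sum_map_mul_left (s := s) (a := a) (f := fun x => x)
  rw [Multiset.map_id'] at h
  rw [← h]
  simp

lemma two_esymm {R : Type*} [CommRing R] (T : Multiset R) :
    2 * T.esymm 2 = T.sum ^ 2 - (T.map (fun x => x ^ 2)).sum := by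
  induction T using Multiset.induction_on with
  | empty =>
    have h : Multiset.powersetCard 2 (0 : Multiset R) = 0 := Multiset.powersetCard_zero_right 1
    unfold Multiset.esymm
    rw [h]
    simp
  | cons a s ih =>
    rw [esymm_two_cons, mul_add, ih, Multiset.sum_cons, Multiset.map_cons, Multiset.sum_cons]
    ring

lemma split {α : Type*} [DecidableEq α] {x y : α} {a b : ℕ} {T : Multiset α}
    (h : T ≤ Multiset.replicate a x + Multiset.replicate b y) :
    ∃ i ≤ a, ∃ j ≤ b, T = Multiset.replicate i x + Multiset.replicate j y := by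
  have h1 : T ∩ Multiset.replicate a x ≤ Multiset.replicate a x := Multiset.inter_le_right
  have h2 : T - Multiset.replicate a x ≤ Multiset.replicate b y := tsub_le_iff_left.2 h
  obtain ⟨i, hi, e1⟩ := Multiset.le_replicate_iff.1 h1
  obtain ⟨j, hj, e2⟩ := Multiset.le_replicate_iff.1 h2
  refine ⟨i, hi, j, hj, ?_⟩
  rw [← e1, ← e2, add_comm]
  exact (Multiset.sub_add_inter _ _).symm

/-- from length to constant -/
lemma forces_exists (n : ℕ) (hn : 0 < n) : ∃ D, 0 < D ∧ Forces n D := by
  have : NeZero n := ⟨hn.ne'⟩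
  refine ⟨n * (2 * n), by positivity, fun S hS => ?_⟩
  obtain ⟨x, hx⟩ : ∃ x : ZMod n, 2 * n ≤ S.count x := by
    by_contra hc
    push Not at hc
    have h1 : S.card = ∑ x : ZMod n, S.count x := by
      rw [← Multiset.toFinset_sum_count_eq S]
      exact Finset.sum_subset (Finset.subset_univ _) fun x _ hx => by
        rwa [Multiset.mem_toFinset, ← Multiset.count_eq_zero] at hx
    have h2 : ∑ x : ZMod n, S.count x < ∑ _x : ZMod n, 2 * n :=
      Finset.sum_lt_sum_of_nonempty ⟨0, Finset.mem_univ _⟩ fun x _ => hc x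
    rw [Finset.sum_const, Finset.card_univ, ZMod.card, smul_eq_mul] at h2
    omega
  refine ⟨Multiset.replicate (2 * n) x, Multiset.le_count_iff_replicate_le.1 hx, ?_, ?_⟩
  · rw [Multiset.card_replicate]; omega
  · unfold Multiset.esymm
    have h3 : ∀ t ∈ Multiset.powersetCard 2 (Multiset.replicate (2 * n) x), t.prod = x ^ 2 := by
      intro t ht
      rw [Multiset.mem_powersetCard] at ht
      obtain ⟨i, hi, e⟩ := Multiset.le_replicate_iff.1 ht.1
      rw [e, Multiset.card_replicate] at ht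
      rw [e, ht.2, Multiset.prod_replicate]
    rw [Multiset.map_congr rfl h3, Multiset.map_const', Multiset.sum_replicate,
      Multiset.card_powersetCard, Multiset.card_replicate, nsmul_eq_mul]
    have h4 : Nat.choose (2 * n) 2 = n * (2 * n - 1) := by
      rw [Nat.choose_two_right, mul_assoc, Nat.mul_div_cancel_left _ (by norm_num)]
    rw [h4, Nat.cast_mul, ZMod.natCast_self]
    ring

lemma lt_dav {n : ℕ} (hn : 0 < n) (S : Multiset (ZMod n)) (h : ∀ T ≤ S, ¬ TwoZero T) :
    S.card < dav n := by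
  have h1 : dav n ∈ {D | 0 < D ∧ Forces n D} := Nat.sInf_mem (forces_exists n hn)
  by_contra hc
  push Not at hc
  obtain ⟨S', h2, h3⟩ : ∃ S' ≤ S, S'.card = dav n := by
    obtain ⟨S', h4⟩ := Multiset.card_pos.1 (show 0 < (Multiset.powersetCard (dav n) S).card by
      rw [Multiset.card_powersetCard]; exact Nat.choose_pos hc) |> Multiset.exists_mem_of_ne_zero
    rw [Multiset.mem_powersetCard] at h4
    exact ⟨S', h4.1, h4.2⟩
  obtain ⟨T, h5, h6⟩ := h1.2 S' h3
  exact h T (h5.trans h2) h6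

lemma dvd_of {p r a b : ℕ} (hp : p.Prime) (h : p ^ r ∣ a * b) (hn : ¬ (p ∣ a ∧ p ∣ b)) :
    p ^ r ∣ a ∨ p ^ r ∣ b := by
  by_cases ha : p ∣ a
  · left
    have hb : ¬ p ∣ b := fun hb => hn ⟨ha, hb⟩
    exact (Nat.Coprime.pow_left r ((Nat.Prime.coprime_iff_not_dvd hp).2 hb)).dvd_of_dvd_mul_right h
  · right
    exact (Nat.Coprime.pow_left r ((Nat.Prime.coprime_iff_not_dvd hp).2 ha)).dvd_of_dvd_mul_left h

theorem main {p r m s : ℕ} (hp : p.Prime) (hp2 : p ≠ 2) (hm : m + 1 ≤ p ^ r)
    (hpm : ¬ p ∣ m) (hm1 : 1 ≤ m)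
    (hs : ∀ j, 2 ≤ j → j ≤ s → ¬ IsSquare ((m : ZMod (p ^ r)) ^ 2 * j - j + 1)) :
    p ^ r - m - 1 + s < dav (p ^ r) := by
  have hn : 0 < p ^ r := pow_pos hp.pos r
  have hodd : Odd (p ^ r) := (hp.odd_of_ne_two hp2).pow
  obtain ⟨h, hh⟩ := hodd
  -- the inverse of two
  have h2 : (2 : ZMod (p ^ r)) * ((h + 1 : ℕ) : ZMod (p ^ r)) = 1 := by
    have h3 : (2 * (h + 1) : ℕ) = p ^ r + 1 := by omega
    have h4 : ((2 * (h + 1) : ℕ) : ZMod (p ^ r)) = ((p ^ r + 1 : ℕ) : ZMod (p ^ r)) := by rw [h3]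
    rw [Nat.cast_mul, Nat.cast_add (p ^ r), ZMod.natCast_self, zero_add] at h4
    simpa using h4
  set t : ZMod (p ^ r) := ((h + 1 : ℕ) : ZMod (p ^ r)) with ht
  set c : ZMod (p ^ r) := t * (m + 1) with hc
  have hc2 : 2 * c = m + 1 := by rw [hc, ← mul_assoc, h2, one_mul]
  have key := lt_dav hn (Multiset.replicate (p ^ r - m - 1) 1 + Multiset.replicate s c) ?_
  · rwa [Multiset.card_add, Multiset.card_replicate, Multiset.card_replicate] at key
  intro T hT ⟨hT1, hT2⟩
  obtain ⟨i, hi, j, hj, e⟩ := split hT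
  rw [e, Multiset.card_add, Multiset.card_replicate, Multiset.card_replicate] at hT1
  have h5 := two_esymm T
  rw [hT2, mul_zero] at h5
  rw [e, Multiset.sum_add, Multiset.sum_replicate, Multiset.sum_replicate, Multiset.map_add,
    Multiset.sum_add, Multiset.map_replicate, Multiset.map_replicate, Multiset.sum_replicate,
    Multiset.sum_replicate] at h5
  simp only [nsmul_eq_mul, mul_one, one_pow] at h5
  have h6 : (2 * (i : ZMod (p ^ r)) + (m + 1) * j - 1) ^ 2 = (m : ZMod (p ^ r)) ^ 2 * j - j + 1 := by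
    have h7 : (2 * (i : ZMod (p ^ r)) + (2 * c) * j) ^ 2 - 4 * i - (2 * c) ^ 2 * j = 0 := by
      linear_combination -4 * h5
    rw [hc2] at h7
    linear_combination h7
  have hu : IsUnit (4 : ZMod (p ^ r)) := by
    refine IsUnit.of_mul_eq_one (t * t) ?_
    linear_combination (2 * t + 1) * h2
  rcases Nat.lt_or_ge j 2 with hj2 | hj2
  · obtain rfl | rfl : j = 0 ∨ j = 1 := by omega
    · have h8 : (4 : ZMod (p ^ r)) * ((i * (i - 1) : ℕ) : ZMod (p ^ r)) = 0 := by
        rw [Nat.cast_mul, Nat.cast_sub (by omega)]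
        push_cast at h6 ⊢
        linear_combination h6
      rw [hu.mul_right_eq_zero, ZMod.natCast_eq_zero_iff] at h8
      rcases dvd_of hp h8 (fun ⟨h9, h10⟩ => hp.one_lt.ne' (Nat.dvd_one.1 (by
        have := Nat.dvd_sub h9 h10
        rwa [show i - (i - 1) = 1 by omega] at this))) with h9 | h9
      · have := Nat.le_of_dvd (by omega) h9
        omega
      · have := Nat.le_of_dvd (by omega) h9
        omega
    · have h8 : (4 : ZMod (p ^ r)) * ((i * (i + m) : ℕ) : ZMod (p ^ r)) = 0 := by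
        push_cast at h6 ⊢
        linear_combination h6
      rw [hu.mul_right_eq_zero, ZMod.natCast_eq_zero_iff] at h8
      rcases dvd_of hp h8 (fun ⟨h9, h10⟩ => hpm ((Nat.dvd_add_right h9).1 h10)) with h9 | h9
      · have := Nat.le_of_dvd (by omega) h9
        omega
      · have := Nat.le_of_dvd (by omega) h9
        omega
  · exact hs j hj2 hj ⟨_, by rw [← h6, sq]⟩

end Pool.Agent.H343.Dv
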